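import Pool.Agent.Work.MP_0ea01d_co.GapMain

set_option autoImplicit false

namespace Pool.Agent.Results.MP_0ea01d_co.NoGap

open Pool.Agent.Work.MP_0ea01d_co

/-- `S(n,l)` has no gaps above `min S(n,l) + 4 l ^ 6 n`: for all `l ≥ 3` and all `n ≥ 2 l - 1`
(that is, `l ≤ ⌈n/2⌉`), `S(n,l)` has a least element `μ`, and every integer `m` with
`μ + 4 l ^ 6 n ≤ m ≤ C(n,l) - ⌊l ^ 3 / 2⌋` lies in `S(n,l)`; if moreover `n ≥ 4 l + 50` then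
every integer `m` with `μ + 4 l ^ 6 n ≤ m ≤ C(n,l)` does. -/
theorem result (n l : ℕ) (hl : 3 ≤ l) (hln : 2 * l ≤ n + 1) :
    ∃ μ : ℕ, IsLeast (S n l) μ ∧
      ∀ m : ℕ, μ + 4 * l ^ 6 * n ≤ m →
        (m + l ^ 3 / 2 ≤ n.choose l ∨ (4 * l + 50 ≤ n ∧ m ≤ n.choose l)) → m ∈ S n l := by
  obtain ⟨m₁, hm₁, _⟩ := (Clo.empty (V := Fin n) (l := l)).mem_S (by omega)
  have hne : (S n l).Nonempty := ⟨m₁, hm₁⟩
  refine ⟨sInf (S n l), ⟨Nat.sInf_mem hne, fun a ha => Nat.sInf_le ha⟩, fun m h1 h2 => ?_⟩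
  exact gap_final hl hln (Nat.sInf_mem hne) h1 h2

end Pool.Agent.Results.MP_0ea01d_co.NoGap
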